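import Pool.Agent.helper78.NLS.Spec

/-! # Project nls: (MP_70a088_an): module FEQ (the functional equation) -/

set_option autoImplicit false

open Complex Metric Set Filter Topology MeasureTheory MPS
open Pool.Agent.helper98.ILF Pool.Agent.helper16.Multibrot

noncomputable section

namespace NLS

lemma FEQ_om_pow {n : ℕ} (hn : 1 ≤ n) : om n ^ n = 1 := by
  unfold om
  have hn0 : (n : ℂ) ≠ 0 := by
    exact_mod_cast (show n ≠ 0 by omega)
  rw [← Complex.exp_nat_mul, mul_div_cancel₀ _ hn0]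
  exact Complex.exp_two_pi_mul_I

lemma FEQ_om_circle (n : ℕ) : om n = (Circle.exp (2 * Real.pi / n) : ℂ) := by
  unfold om
  rw [Circle.coe_exp]
  congr 1
  push_cast
  ring

lemma FEQ_om_norm (n : ℕ) : ‖om n‖ = 1 := by
  rw [FEQ_om_circle]
  exact Circle.norm_coe _

lemma FEQ_rot (n : ℕ) {p : ℂ → Prop} (h : ∀ᵐ z : ℂ, p z) : ∀ᵐ z : ℂ, p (om n * z) := by
  have h1 := (rotation (Circle.exp (2 * Real.pi / n))).measurePreserving.quasiMeasurePreserving.ae h
  filter_upwards [h1] with z hz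
  rw [rotation_apply, ← FEQ_om_circle] at hz
  exact hz

/-- the symmetry of invariant Beltrami forms. -/
lemma FEQ_sym {n : ℕ} {c : ℂ} {μ : ℂ → ℂ} (hn : 2 ≤ n)
    (hinv : ∀ᵐ z : ℂ, μ (z ^ n + c) * (starRingEnd ℂ) (fd n z) / fd n z = μ z) :
    ∀ᵐ z : ℂ, μ (om n * z) = om n ^ 2 * μ z := by
  have hrot := FEQ_rot n hinv
  filter_upwards [hinv, hrot] with z h1 h2
  have hom : om n ^ n = 1 := FEQ_om_pow (by omega)
  have hp : (om n * z) ^ n = z ^ n := by rw [mul_pow, hom, one_mul]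
  have hfd : fd n (om n * z) = om n ^ (n - 1) * fd n z := by
    unfold fd
    rw [mul_pow]
    ring
  have hne : om n ≠ 0 := by
    intro h
    have := FEQ_om_norm n
    rw [h, norm_zero] at this
    exact zero_ne_one this
  have hw : om n ^ (n - 1) ≠ 0 := pow_ne_zero _ hne
  have h4 : om n ^ (n - 1) * om n = 1 := by
    rw [← pow_succ, Nat.sub_add_cancel (by omega), hom]
  have h5 : (starRingEnd ℂ) (om n ^ (n - 1)) = om n := by
    have h6 : om n ^ (n - 1) * (starRingEnd ℂ) (om n ^ (n - 1)) = 1 := by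
      rw [Complex.mul_conj, Complex.normSq_eq_norm_sq, norm_pow, FEQ_om_norm, one_pow, one_pow]
      exact Complex.ofReal_one
    exact mul_left_cancel₀ hw (h6.trans h4.symm)
  have h3 : (starRingEnd ℂ) (om n ^ (n - 1)) = om n ^ (n - 1) * om n ^ 2 := by
    rw [h5, pow_two, ← mul_assoc, h4, one_mul]
  rw [hp, hfd, map_mul, h3] at h2
  rw [← h2, ← h1]
  rw [show μ (z ^ n + c) * (om n ^ (n - 1) * om n ^ 2 * (starRingEnd ℂ) (fd n z)) =
    om n ^ (n - 1) * (om n ^ 2 * (μ (z ^ n + c) * (starRingEnd ℂ) (fd n z))) by ring,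
    mul_div_mul_left _ _ hw, mul_div_assoc]

/-- the limit functions. -/
def FEQ_psi (H : ℕ → ℂ → ℂ) : ℕ → ℂ → ℂ
  | 0 => fun z => z
  | j + 1 => fun z => (1 / Real.pi) * ∫ w : ℂ, H j w / (z - w)

theorem FEQ (hMOL : MOL_stmt) (hPSP : PSP_stmt) (hPCB : PCB_stmt) (hERR : ERR_stmt) (hL2C : L2C_stmt)
    (hEPS : EPS_stmt) (hOFS : OFS_stmt) (hCTL : CTL_stmt) (hHOL : HOL_stmt) (hSHK : SHK_stmt)
    (hCTS : CTS_stmt) (hISO : ISO_stmt) : FEQ_stmt := by
  intro n c μ hn hc hKc hKne hK4 hKf hμm hμ1 hμK hinv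
  set K := filled n c with hKdef
  have hn1 : 1 ≤ n := by omega
  have hKcl : IsClosed K := hKc.isClosed
  have hom : om n ^ n = 1 := FEQ_om_pow hn1
  have hKom : ∀ z, z ∈ K ↔ om n * z ∈ K := by
    intro z
    rw [hKf z, hKf (om n * z), mul_pow, hom, one_mul]
  have hsym := FEQ_sym hn hinv
  obtain ⟨m, hm, hmsupp, hmlim⟩ := hMOL n K μ hn1 hKcl hKne hKom hK4 hμm hμ1 hμK hsym
  have hμ4 : ∀ z, 4 ≤ ‖z‖ → μ z = 0 := by
    intro z hz
    by_contra h
    have h1 := hK4 (hμK z h)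
    rw [mem_ball_zero_iff] at h1
    linarith
  obtain ⟨H, s, hH0, hHm, hs0, -, hHs, hHn, hHlim, -⟩ :=
    hL2C m μ hμm hμ1 hμ4 (fun k => ⟨(hm k).1, (hm k).2.2⟩) hmlim
  have hHK : ∀ j z, H j z ≠ 0 → z ∈ K := by
    intro j z h
    apply hμK
    intro h0
    rw [hHs j z, h0, zero_mul] at h
    exact h rfl
  have hH4 : ∀ j z, 4 ≤ ‖z‖ → H j z = 0 := by
    intro j z hz
    rw [hHs j z, hμ4 z hz, zero_mul]
  have hpsp := fun k => hPSP n 5 (m k) hn1 (by norm_num) (hm k).1 (hm k).2.2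
  have hpos : ∀ z ∉ K, 0 < infDist z K := fun z hz => (hKcl.notMem_iff_infDist_pos hKne).1 hz
  -- convergence of the coefficients off `K`
  have hconv : ∀ i, ∀ z ∉ K, Tendsto (fun k => ps (m k) i z) atTop (𝓝 (FEQ_psi H i z)) := by
    intro i z hz
    cases i with
    | zero => exact tendsto_const_nhds
    | succ j =>
      have h1 : ∀ (k : ℕ) (w : ℂ), hp (m k) j w ≠ 0 → infDist w K ≤ 1 / ((k : ℝ) + 1) := by
        intro k w hw
        apply hmsupp
        intro h0
        exact hw (((hpsp k).1 j).2.2.1 w h0)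
      exact hOFS K (fun k => hp (m k) j) (H j) hKcl hKne hK4 (fun k => ((hpsp k).1 j).2.1) h1
        (hHm j).2.1 (hHK j) (hHlim j) z hz
  -- the errors
  have hε : ∀ j, ∀ z ∉ K, Tendsto (fun k => Ct (db (gg n c (m k) j)) z) atTop (𝓝 0) := by
    intro j z hz
    have hd := hpos z hz
    obtain ⟨e, he, hshk⟩ := hSHK n c K hn hc hKcl hKne hK4 hKf (infDist z K / 2) (by linarith)
    have hlim := hEPS n c m μ hn hc hμm hμ1 hμ4 hm hmlim hinv j
    have hlim2 : Tendsto (fun k => 5 / (infDist z K / 2) *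
        (eLpNorm (db (gg n c (m k) j)) 2 volume).toReal) atTop (𝓝 0) := by
      have h1 := (ENNReal.tendsto_toReal ENNReal.zero_ne_top).comp hlim
      have h2 := h1.const_mul (5 / (infDist z K / 2))
      rw [ENNReal.toReal_zero, mul_zero] at h2
      exact h2
    have hev : ∀ᶠ k : ℕ in atTop, 1 / ((k : ℝ) + 1) < min e (infDist z K / 2) :=
      (tendsto_one_div_add_atTop_nhds_zero_nat (𝕜 := ℝ)).eventually
        (gt_mem_nhds (lt_min he (by linarith)))
    refine squeeze_zero_norm' ?_ hlim2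
    filter_upwards [hev] with k hk
    obtain ⟨h1, -, -, h4, -, -⟩ := hERR n c 5 (m k) hn hc (by norm_num) (hm k).1 (hm k).2.1 (hm k).2.2
    have hSc := (h1 j).1
    have h5 : ∀ w, db (gg n c (m k) j) w ≠ 0 → infDist z K / 2 ≤ ‖z - w‖ := by
      intro w hw
      have hw1 : infDist w K ≤ infDist z K / 2 := by
        rcases h4 j w hw with h | h
        · exact (hmsupp k w h).trans (hk.le.trans (min_le_right _ _))
        · exact hshk w ((hmsupp k _ h).trans (hk.le.trans (min_le_left _ _)))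
      have hw2 : infDist z K ≤ infDist w K + dist z w := infDist_le_infDist_add_dist
      rw [dist_eq_norm] at hw2
      linarith
    have h6 := (hCTL 5 (infDist z K / 2) (db (gg n c (m k) j)) z (by norm_num) (by linarith)
      (hISO 5 _ (by norm_num) hSc).1 hSc.supp h5).2
    rw [(hCTS.2 5 _ hSc).2.2.2.1 z]
    have h7 : ((1 / Real.pi : ℝ) : ℂ) = 1 / (Real.pi : ℂ) := by push_cast; rfl
    rw [h7] at h6
    exact h6
  -- the limits of the errors of the functional equation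
  have hgg : ∀ j, ∀ z ∉ K, Tendsto (fun k => gg n c (m k) j z) atTop
      (𝓝 (FEQ_psi H j (z ^ n + c) - Pc (fun i => FEQ_psi H i z) n j)) := by
    intro j z hz
    have hfz : z ^ n + c ∉ K := fun h => hz ((hKf z).2 h)
    exact (hconv j _ hfz).sub (hPCB.2.2.2.2.2 n j (fun k i => ps (m k) i z)
      (fun i => FEQ_psi H i z) (fun i => hconv i z hz))
  have hconst : ∀ j, ∀ z ∉ K, ∀ z' ∉ K,
      FEQ_psi H j (z ^ n + c) - Pc (fun i => FEQ_psi H i z) n j =
      FEQ_psi H j (z' ^ n + c) - Pc (fun i => FEQ_psi H i z') n j := by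
    intro j z hz z' hz'
    have h1 := (hgg j z hz).sub (hgg j z' hz')
    have h2 := (hε j z hz).sub (hε j z' hz')
    have h3 : (fun k => gg n c (m k) j z - gg n c (m k) j z') =
        fun k => Ct (db (gg n c (m k) j)) z - Ct (db (gg n c (m k) j)) z' := by
      funext k
      obtain ⟨-, -, -, -, h5, -⟩ := hERR n c 5 (m k) hn hc (by norm_num) (hm k).1 (hm k).2.1 (hm k).2.2
      obtain ⟨a, ha⟩ := h5 j
      rw [ha z, ha z']
      ring
    rw [h3] at h1
    have h4 := tendsto_nhds_unique h1 h2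
    rw [sub_zero] at h4
    exact sub_eq_zero.1 h4
  have hz0 : (4 : ℂ) ∉ K := by
    intro h
    have h1 := hK4 h
    rw [mem_ball_zero_iff] at h1
    norm_num at h1
  refine ⟨FEQ_psi H, fun j => FEQ_psi H j ((4 : ℂ) ^ n + c) - Pc (fun i => FEQ_psi H i 4) n j,
    4 * (eLpNorm μ 2 volume).toReal, fun z => rfl, ?_, by positivity, ?_, ?_, ?_, ?_, ?_⟩
  · show (4 : ℂ) ^ n + c - Pc (fun i => FEQ_psi H i 4) n 0 = c
    rw [hPCB.2.2.2.1]
    show (4 : ℂ) ^ n + c - (4 : ℂ) ^ n = c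
    ring
  · intro j
    cases j with
    | zero => exact differentiableOn_id
    | succ i => exact hHOL K (H i) hKcl hK4 (hHm i).2.1 (hHK i)
  · intro j hj z hz
    obtain ⟨i, rfl⟩ : ∃ i, j = i + 1 := ⟨j - 1, by omega⟩
    have hd := hpos z hz
    have h5 : ∀ w, H i w ≠ 0 → infDist z K ≤ ‖z - w‖ := by
      intro w hw
      rw [← dist_eq_norm]
      exact infDist_le_dist_of_mem (hHK i w hw)
    have h6 := (hCTL 4 (infDist z K) (H i) z (by norm_num) hd (hHm i).2.1 (hH4 i) h5).2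
    have h7 : ((1 / Real.pi : ℝ) : ℂ) = 1 / (Real.pi : ℂ) := by push_cast; rfl
    rw [h7] at h6
    have hfin : eLpNorm μ 2 volume ≠ ⊤ := by
      have h8 := (hHm 0).2.1.2
      rw [hH0] at h8
      exact h8.ne
    have h9 : (eLpNorm (H i) 2 volume).toReal ≤ (eLpNorm μ 2 volume).toReal :=
      ENNReal.toReal_mono hfin (hHn i)
    calc ‖FEQ_psi H (i + 1) z‖ ≤ 4 / infDist z K * (eLpNorm (H i) 2 volume).toReal := h6
      _ ≤ 4 / infDist z K * (eLpNorm μ 2 volume).toReal :=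
          mul_le_mul_of_nonneg_left h9 (by positivity)
      _ = 4 * (eLpNorm μ 2 volume).toReal / infDist z K := by ring
  · intro j z hz
    have hz' : om n * z ∉ K := fun h => hz ((hKom z).2 h)
    have h1 := hconv j (om n * z) hz'
    have h2 := (hconv j z hz).const_mul (om n)
    have h3 : (fun k => ps (m k) j (om n * z)) = fun k => om n * ps (m k) j z := by
      funext k
      exact (hpsp k).2.2 (hm k).2.1 j z
    rw [h3] at h1
    exact tendsto_nhds_unique h1 h2
  · intro z _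
    show (1 / Real.pi : ℂ) * ∫ w : ℂ, H 0 w / (z - w) = _
    rw [hH0]
  · intro j z hz
    have h1 := hconst j z hz 4 hz0
    show FEQ_psi H j (z ^ n + c) = Pc (fun i => FEQ_psi H i z) n j +
      (FEQ_psi H j ((4 : ℂ) ^ n + c) - Pc (fun i => FEQ_psi H i 4) n j)
    rw [← h1]
    ring

end NLS
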